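import Pool.Agent.Helper53.BanachMod
import Pool.Agent.Helper53.LeftCase

set_option autoImplicit false

namespace Pool.Agent.Results.MP_a30514_an.LeftQ1

open Pool.Agent.Helper53

/-- The Banach algebra `K(ℓ¹)` of all compact operators on the complex Banach space `ℓ¹` is not
projective as a Banach left module over itself. This answers Q1 in the negative. -/
theorem result : ¬ KLeftProjective (lp (fun _ : ℕ => ℂ) 1) :=
  not_leftProjective_ell1

end Pool.Agent.Results.MP_a30514_an.LeftQ1
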