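import Pool.Agent.Helper53.BanachMod
import Pool.Agent.Helper53.RightFinal

set_option autoImplicit false

namespace Pool.Agent.Results.MP_a30514_an.RightQ2

open Pool.Agent.Helper53

/-- There is a complex Banach space `E` such that the Banach algebra `K(E)` of all compact
operators on `E` is not projective as a Banach right module over itself. This answers Q2 in the
negative. -/
theorem result : ∃ (E : Type) (_ : NormedAddCommGroup E) (_ : NormedSpace ℂ E),
    CompleteSpace E ∧ ¬ KRightProjective E :=
  ⟨Psi.Sp Psi.branch, inferInstance, inferInstance, inferInstance, not_KRightProjective_psi⟩

end Pool.Agent.Results.MP_a30514_an.RightQ2
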